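import Pool.Agent.H437R2.Man.Final
import Pool.Agent.H437R2.Man.Low
import Pool.Agent.H437R2.Man.Mord

/-!
# The weak Manin conjecture for a threefold fibred in non-split quadric surfaces

Let `X` be the smooth, rationally connected threefold `c₀ c₁ = u² - (s⁶ + t⁶) v²`, fibred over the
line with coordinates `(s : t)` in quadric surfaces whose discriminant `s⁶ + t⁶` is not a square;
`X` is embedded in `ℙ¹⁴` by the monomials `c₀ sⁱ t²⁻ⁱ, c₁ sⁱ t²⁻ⁱ, u sⁱ t²⁻ⁱ`, `v sʲ t⁵⁻ʲ`. For
`L = O(1)` one has `K_X = -2 L + 5 F` with `F` the class of a fibre, and the Fujita invariant is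
`a(X, L) = 2`.

For every number field `E` there is a proper closed subset `A` of `X` such that the number of the
`E`-points of `X ∖ A` of height at most `H` is `O(H²)`, without a factor `H^ε` or a logarithm.
The set `A` consists of the fibres over the points `(s : t)` over `E` for which `s⁶ + t⁶` is a
square in `E`; these are finitely many by the theorem of Faltings for the curve `y² = x⁶ + 1`, which is
proved in the library (`Pool.Agent.H437R2.Man.mordell`). It has to depend on `E`: for every proper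
closed subset `A₀` and every number field `E` there is a number field `E' ⊇ E` such that `X ∖ A₀` has at
least `c H² log H` points over `E'` of height at most `H`.

Source: `Pool.Agent.H437R2.Man` of the starting library, never handed in.
-/

set_option autoImplicit false

open scoped LinearAlgebra.Projectivization
open Pool.Agent.H437R2.Man (Qb I15 Zvec ZClosed ZIrred bc)

namespace Pool.Agent.Results.MP_18ea5f_nt.QuadricSurfaceBundle

/-- Projective space of dimension 14 over `K`. -/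
abbrev P14 (K : Type) [Field K] : Type := ℙ K (I15 → K)

/-- The points of `X` over the field `K`. -/
def X (K : Type) [Field K] : Set (P14 K) :=
  {P | ∃ s t c₀ c₁ u v : K, (s ≠ 0 ∨ t ≠ 0) ∧ c₀ * c₁ = u ^ 2 - (s ^ 6 + t ^ 6) * v ^ 2 ∧
    ∃ h : Zvec s t c₀ c₁ u v ≠ 0, P = Projectivization.mk K (Zvec s t c₀ c₁ u v) h}

/-- The value of a polynomial at the homogeneous coordinates of a point. -/
noncomputable def val {ι K : Type} [Field K] (f : MvPolynomial ι K) (P : ℙ K (ι → K)) : K :=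
  MvPolynomial.aeval P.rep f

/-- Homogeneous polynomials. -/
def IsForm {ι K : Type} [Field K] (f : MvPolynomial ι K) : Prop := ∃ k : ℕ, f.IsHomogeneous k

/-- The vector of the partial derivatives of `f` at `P`. -/
noncomputable def gradient {ι K : Type} [Field K] (f : MvPolynomial ι K) (P : ℙ K (ι → K)) :
    ι → K := fun j => val (MvPolynomial.pderiv j f) P

/-- `V` is smooth of pure dimension `d`: near each of its points `P`, on an open set `g ≠ 0`, it is
cut out by `card ι - 1 - d` forms whose gradients at `P` are linearly independent. -/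
def Smooth {ι K : Type} [Fintype ι] [Field K] (V : Set (ℙ K (ι → K))) (d : ℕ) : Prop :=
  ∀ P ∈ V, ∃ (f : Fin (Fintype.card ι - 1 - d) → MvPolynomial ι K) (g : MvPolynomial ι K),
    (∀ i, IsForm (f i)) ∧ IsForm g ∧ val g P ≠ 0 ∧
    (∀ Q : ℙ K (ι → K), val g Q ≠ 0 → (Q ∈ V ↔ ∀ i, val (f i) Q = 0)) ∧
    LinearIndependent K (fun i => gradient (f i) P)

/-- The values of the polynomials `f i` at `p`. -/
noncomputable def values {ι : Type} (f : ι → MvPolynomial (Fin 2) ℂ) (p : Fin 2 → ℂ) : ι → ℂ :=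
  fun i => MvPolynomial.eval p (f i)

/-- The map given by the forms `f i` is defined at `p`, with value `x`. -/
def MapsTo {ι : Type} (f : ι → MvPolynomial (Fin 2) ℂ) (p : Fin 2 → ℂ) (x : ℙ ℂ (ι → ℂ)) : Prop :=
  ∃ h : values f p ≠ 0, Projectivization.mk ℂ (values f p) h = x

/-- Any two points of `V` lie on the image of a morphism from the projective line to `V`. -/
def RationallyConnected {ι : Type} (V : Set (ℙ ℂ (ι → ℂ))) : Prop :=
  ∀ x ∈ V, ∀ y ∈ V, ∃ (k : ℕ) (f : ι → MvPolynomial (Fin 2) ℂ), (∀ i, (f i).IsHomogeneous k) ∧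
    (∀ p ≠ 0, ∃ z ∈ V, MapsTo f p z) ∧ (∃ p ≠ 0, MapsTo f p x) ∧ ∃ p ≠ 0, MapsTo f p y

/-- The points of `X ∖ A` over `K` of height at most `H` (relative to `K`). -/
def points (K : Type) [Field K] [NumberField K] [Algebra K Qb] (A : Set (P14 Qb)) (H : ℝ) :
    Set (P14 K) := {P | bc Qb P ∈ X Qb ∧ bc Qb P ∉ A ∧ P.mulHeight ≤ H}

/-- A proper Zariski closed subset of `X`. -/
def ProperClosed (A : Set (P14 Qb)) : Prop := ZClosed A ∧ A ⊂ X Qb

/-- For the number field `E` there are at most `C H²` points outside `A`. -/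
def Few (E : IntermediateField ℚ Qb) [NumberField E] (A : Set (P14 Qb)) : Prop :=
  ∃ C : ℝ, ∀ H : ℝ, 1 ≤ H → (points E A H).Finite ∧ ((points E A H).ncard : ℝ) ≤ C * H ^ 2

/-- For the number field `E` there are at least `c H² log H` points outside `A`. -/
def Many (E : IntermediateField ℚ Qb) [NumberField E] (A : Set (P14 Qb)) : Prop :=
  ∃ c H₀ : ℝ, 0 < c ∧ ∀ H : ℝ, H₀ ≤ H → (points E A H).Finite ∧
    c * (H ^ 2 * Real.log H) ≤ ((points E A H).ncard : ℝ)

theorem X_eq (K : Type) [Field K] [Algebra ℚ K] :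
    X K = Pool.Agent.H437R2.Man.Zer K (Pool.Agent.H437R2.Man.SX ℚ) := by
  ext P
  exact (Pool.Agent.H437R2.Man.mem_X_iff K P).symm

theorem bc_mem {K : Type} [Field K] [Algebra ℚ K] [Algebra K Qb] [IsScalarTower ℚ K Qb]
    (P : P14 K) : bc Qb P ∈ X Qb ↔ P ∈ X K := by
  rw [X_eq, X_eq]
  unfold Pool.Agent.H437R2.Man.Zer
  have hP : P = Projectivization.mk K P.rep P.rep_nonzero := P.mk_rep.symm
  have h1 : bc Qb P = Projectivization.mk Qb (fun i => algebraMap K Qb (P.rep i))
      (Pool.Agent.H437R2.Man.Fin_.map_ne_zero' P.rep_nonzero) := by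
    conv_lhs => rw [hP]
    exact Pool.Agent.H437R2.Man.Fin_.bc_mk _ _
  rw [h1]
  have h2 := Pool.Agent.H437R2.Man.GEO2.mk_mem_Zer Pool.Agent.H437R2.Man.geo_homog
    (fun i => algebraMap K Qb (P.rep i)) (Pool.Agent.H437R2.Man.Fin_.map_ne_zero' P.rep_nonzero)
  refine h2.trans ?_
  refine forall₂_congr fun f _ => ?_
  have h3 : MvPolynomial.aeval (fun i => algebraMap K Qb (P.rep i)) f =
      algebraMap K Qb (MvPolynomial.aeval P.rep f) := by
    exact MvPolynomial.aeval_algebraMap_apply Qb P.rep f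
  rw [h3]
  exact map_eq_zero_iff _ (algebraMap K Qb).injective

theorem points_eq (E : IntermediateField ℚ Qb) [NumberField E] (A : Set (P14 Qb)) (H : ℝ) :
    points E A H = {P : P14 E | P ∈ Pool.Agent.H437R2.Man.Zer E (Pool.Agent.H437R2.Man.SX ℚ) ∧
      bc Qb P ∉ A ∧ P.mulHeight ≤ H} := by
  ext P
  have := bc_mem (K := E) P
  rw [X_eq E] at this
  exact and_congr this Iff.rfl

theorem points_fin (E : IntermediateField ℚ Qb) [NumberField E] (A : Set (P14 Qb)) (H : ℝ) :
    (points E A H).Finite :=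
  (Pool.Agent.H437R2.Man.Fin_.northcott H).subset fun _ hP => hP.2.2

theorem ratconn : RationallyConnected (X ℂ) := by
  intro x hx y hy
  rw [X_eq] at hx hy
  obtain ⟨k, f, h1, h0, h2, ⟨p, hp, h3⟩, ⟨q, hq, h4⟩⟩ :=
    Pool.Agent.H437R2.Man.geo_ratconn x hx y hy
  refine ⟨k, f, h1, fun p hp => ⟨_, ?_, h0 p hp, rfl⟩, ⟨p, hp, h0 p hp, h3⟩, ⟨q, hq, h0 q hq, h4⟩⟩
  rw [X_eq]
  exact h2 p hp

theorem smooth : Smooth (X Qb) 3 := by
  intro P hP
  rw [X_eq] at hP ⊢
  exact Pool.Agent.H437R2.Man.geo_smooth P hP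

theorem few (E : IntermediateField ℚ Qb) [NumberField E] (A₀ : Set (P14 Qb))
    (hA₀ : ProperClosed A₀) : ∃ A : Set (P14 Qb), ProperClosed A ∧ A₀ ⊆ A ∧ Few E A := by
  classical
  obtain ⟨hA1, hA2⟩ := hA₀
  rw [X_eq] at hA2
  set T : Set (Qb × Qb) := insert ((1 : Qb), (0 : Qb))
    ((fun x : E => ((x : Qb), (1 : Qb))) '' {x : E | ∃ y : E, y ^ 2 = x ^ 6 + 1}) with hT
  have hTfin : T.Finite := ((Pool.Agent.H437R2.Man.mordell E).image _).insert _
  have hT0 : ∀ p ∈ T, p.1 ≠ 0 ∨ p.2 ≠ 0 := by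
    intro p hp
    rcases hp with rfl | ⟨x, _, rfl⟩
    · left; exact one_ne_zero
    · right; exact one_ne_zero
  obtain ⟨hcl, hpr⟩ := Pool.Agent.H437R2.Man.geo_add_fib A₀ hA1 hA2 T hTfin hT0
  refine ⟨A₀ ∪ ⋃ p ∈ T, Pool.Agent.H437R2.Man.Fib p.1 p.2, ⟨hcl, ?_⟩, Set.subset_union_left, ?_⟩
  · rw [X_eq]; exact hpr
  obtain ⟨C, -, hC⟩ := Pool.Agent.H437R2.Man.Fin_.upper_N E
    (A₀ ∪ ⋃ p ∈ T, Pool.Agent.H437R2.Man.Fib p.1 p.2) (by
      intro P hP
      right
      exact Set.mem_biUnion (x := ((1 : Qb), (0 : Qb))) (Set.mem_insert _ _) hP) (by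
      intro x hx P hP
      right
      exact Set.mem_biUnion (x := ((x : Qb), (1 : Qb)))
        (Set.mem_insert_of_mem _ ⟨x, hx, rfl⟩) hP)
  refine ⟨C, fun H hH => ⟨points_fin E _ H, ?_⟩⟩
  rw [points_eq]
  exact hC H hH

theorem many (E : IntermediateField ℚ Qb) [NumberField E] (A₀ : Set (P14 Qb))
    (hA₀ : ProperClosed A₀) :
    ∃ (E' : IntermediateField ℚ Qb) (_ : NumberField E'), E ≤ E' ∧ Many E' A₀ := by
  obtain ⟨hA1, hA2⟩ := hA₀
  rw [X_eq] at hA2
  obtain ⟨E', hE', hle, c, H₀, hc, h⟩ := Pool.Agent.H437R2.Man.Fin_.lower_N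
    (fun K L _ _ _ _ s t e he hst g hg hne =>
      Pool.Agent.H437R2.Man.lower K L s t e he hst g hg hne) E A₀ hA1 hA2
  refine ⟨E', hE', hle, c, H₀, hc, fun H hH => ⟨points_fin E' _ H, ?_⟩⟩
  rw [points_eq]
  exact h H hH

/-- **Main theorem.** `X` is a closed, irreducible, smooth, rationally connected threefold. For
every number field `E` and every proper closed subset `A₀` of `X` there is a proper closed subset
`A ⊇ A₀` such that `X ∖ A` has at most `C H²` points of height at most `H` over `E`; but over some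
number field `E' ⊇ E` even `X ∖ A₀` has at least `c H² log H` such points. -/
theorem result :
    (ZClosed (X Qb) ∧ ZIrred (X Qb) ∧ Smooth (X Qb) 3 ∧ RationallyConnected (X ℂ)) ∧
    ∀ (E : IntermediateField ℚ Qb) [NumberField E] (A₀ : Set (P14 Qb)), ProperClosed A₀ →
      (∃ A : Set (P14 Qb), ProperClosed A ∧ A₀ ⊆ A ∧ Few E A) ∧
      ∃ (E' : IntermediateField ℚ Qb) (_ : NumberField E'), E ≤ E' ∧ Many E' A₀ := by
  refine ⟨⟨?_, ?_, smooth, ratconn⟩, fun E _ A₀ hA₀ => ⟨few E A₀ hA₀, many E A₀ hA₀⟩⟩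
  · refine ⟨MvPolynomial.map (algebraMap ℚ Qb) '' (Pool.Agent.H437R2.Man.SX ℚ), ?_, ?_⟩
    · rintro _ ⟨f, hf, rfl⟩
      obtain ⟨k, hk⟩ := Pool.Agent.H437R2.Man.geo_homog f hf
      exact ⟨k, hk.map _⟩
    · rw [X_eq]
      ext P
      constructor
      · rintro h _ ⟨f, hf, rfl⟩
        rw [MvPolynomial.aeval_map_algebraMap]
        exact h f hf
      · intro h f hf
        have := h _ ⟨f, hf, rfl⟩
        rwa [MvPolynomial.aeval_map_algebraMap] at this
  · rw [X_eq]
    exact Pool.Agent.H437R2.Man.geo_irred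

end Pool.Agent.Results.MP_18ea5f_nt.QuadricSurfaceBundle
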